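import Pool.Agent.Run7.h7.QIso
import Pool.Agent.Run7.h7.QFam

/-!
# MP_8e98f2_gt, Q1: paths of homeomorphisms from the identity to a barbell implantation

Q1 asks for a barbell in the 4-sphere whose implantation is not smoothly isotopic to the identity.
Let `φ` be a diffeomorphism of a smooth 4-manifold `M` (Q1: `M = S⁴`; also the interiors of `B⁴` and
of `S¹ × B³`) with support in a compact set `C` (for an implantation, the image of the thickened
barbell or a larger set, such as a ball), and let `f_t` be a path of homeomorphisms of `M` with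
support in `C` from the identity to `φ`.  For `M = S⁴` and `φ` homotopic to the identity there are
such paths, by theorems of Perron and Quinn.  We assume that near every `(t, x)` with `x` in `C`
either `f` is of class `C^1` (in both variables) and the derivative of `f_t` at `x` has rank at
least three, or three of the four coordinates of `f` are of class `C^1` with independent derivatives
in the direction of `M`, while nothing is known about the last one.  The coordinates are taken from a
family of submersions `q j : dom j → ℝ³` of class `C^1`, defined on open subsets of `M`, any two of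
which are at each common point transversal or have the same fibres near this point; or they are given
by a map from `M` to a smooth 3-manifold which is a submersion of class `C^1` near the point.

Then `φ` is smoothly isotopic to the identity, by an isotopy with compact support in any given
neighbourhood of `C` and as close to the path as we please.  So for an implantation that represents a
nontrivial element no path of this kind exists.
-/

set_option autoImplicit false

open Set Filter Topology Metric Function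
open scoped Manifold ContDiff

noncomputable section

namespace Pool.Agent.Results.MP_8e98f2_gt.C1Isotopy

/-- `ℝ⁴` -/
abbrev R4 : Type := EuclideanSpace ℝ (Fin 4)

/-- `ℝ³` -/
abbrev R3 : Type := EuclideanSpace ℝ (Fin 3)

/-- smooth 4-manifolds: Hausdorff spaces with a smooth structure (with charts in `ℝ⁴`, so without
boundary), not necessarily compact -/
structure Manifold4 where
  /-- the set of points -/
  pts : Type
  [top : TopologicalSpace pts]
  [chart : ChartedSpace R4 pts]
  smooth : IsManifold (𝓡 4) ∞ pts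
  hausdorff : T2Space pts

instance : CoeSort Manifold4 Type := ⟨Manifold4.pts⟩

instance (M : Manifold4) : TopologicalSpace M := M.top

instance (M : Manifold4) : ChartedSpace R4 M := M.chart

/-- smooth 3-manifolds (without boundary) -/
structure Manifold3 where
  /-- the set of points -/
  pts : Type
  [top : TopologicalSpace pts]
  [chart : ChartedSpace R3 pts]
  smooth : IsManifold (𝓡 3) ∞ pts

instance : CoeSort Manifold3 Type := ⟨Manifold3.pts⟩

instance (B : Manifold3) : TopologicalSpace B := B.top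

instance (B : Manifold3) : ChartedSpace R3 B := B.chart

section defs

variable {M B : Type} [TopologicalSpace M] [TopologicalSpace B] [ChartedSpace R4 M]
  [ChartedSpace R3 B]

/-- the derivative at `x` of a map from `M` to itself (in the preferred charts) -/
def der (g : M → M) (x : M) : R4 →L[ℝ] R4 := mfderiv (𝓡 4) (𝓡 4) g x

/-- the rank of a linear map -/
def rank (L : R4 →L[ℝ] R4) : ℕ := Module.finrank ℝ (LinearMap.range L.toLinearMap)

/-- the derivative at `y` of a map to a 3-manifold (in the preferred charts) -/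
def der3 (q : M → B) (y : M) : R4 →L[ℝ] R3 := mfderiv (𝓡 4) (𝓡 3) q y

/-- `f` is of class `C^1`, in both variables, near `(t, x)`, and the derivative of `f_t` at `x` has
rank at least three -/
def C1CorankOne (f : ℝ × M → M) (t : ℝ) (x : M) : Prop :=
  (∀ᶠ p in 𝓝 (t, x), ContMDiffAt ((𝓘(ℝ, ℝ)).prod (𝓡 4)) (𝓡 4) 1 f p) ∧
    3 ≤ rank (der (fun z => f (t, z)) x)

/-- `q` is of class `C^1` near `y`, and its derivative at `y` is surjective -/
def Submersion (q : M → B) (y : M) : Prop :=
  (∀ᶠ z in 𝓝 y, ContMDiffAt (𝓡 4) (𝓡 3) 1 q z) ∧ Surjective (der3 q y)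

/-- `q ∘ f` is of class `C^1` in both variables near `(t, x)`, and its derivative in the direction
of `M` is surjective -/
def Along (q : M → B) (f : ℝ × M → M) (t : ℝ) (x : M) : Prop :=
  (∀ᶠ p in 𝓝 (t, x), ContMDiffAt ((𝓘(ℝ, ℝ)).prod (𝓡 4)) (𝓡 3) 1 (fun p => q (f p)) p) ∧
    Surjective (der3 (fun z => q (f (t, z))) x)

/-- no nonzero vector is in the kernels of both derivatives at `y` -/
def Transversal (q q' : M → R3) (y : M) : Prop :=
  ∀ v : R4, der3 q y v = 0 → der3 q' y v = 0 → v = 0

/-- near `y`, the map `q'` is constant on the fibres of `q` -/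
def SameFibres (q q' : M → R3) (y : M) : Prop :=
  ∃ W ∈ 𝓝 y, ∀ z ∈ W, ∀ z' ∈ W, q z = q z' → q' z = q' z'

end defs

/-- a family of submersions of class `C^1` from open subsets of `M` to `ℝ³`, any two of which are at
every common point transversal or have the same fibres near this point -/
structure Family (M : Manifold4) where
  /-- the set of indices -/
  Idx : Type
  /-- the domains -/
  dom : Idx → Set M
  /-- the maps (the values outside the domains are irrelevant) -/
  map : Idx → M → R3
  isOpen_dom : ∀ j, IsOpen (dom j)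
  submersion : ∀ j, ∀ y ∈ dom j, Submersion (map j) y
  compatible : ∀ j k, ∀ y ∈ dom j, y ∈ dom k →
    Transversal (map j) (map k) y ∨ SameFibres (map j) (map k) y

section defs2

variable {M : Manifold4}

/-- `f` is a path `f_t`, `0 ≤ t ≤ 1`, of bijections with support in `C`, from the identity to `φ`
(continuous in both variables) -/
def IsPath (φ : M → M) (C : Set M) (f : ℝ × M → M) : Prop :=
  Continuous f ∧ (∀ t ∈ Icc (0 : ℝ) 1, Bijective (fun x => f (t, x)) ∧ ∀ x, x ∉ C → f (t, x) = x) ∧
    (∀ x, f (0, x) = x) ∧ ∀ x, f (1, x) = φ x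

/-- at the points of `C`, at all times, `f` is of class `C^1` and of corank at most one, or has three
coordinates of class `C^1`, given by a family of submersions -/
def C1ByFamily (C : Set M) (f : ℝ × M → M) : Prop :=
  ∃ 𝓕 : Family M, ∀ t ∈ Icc (0 : ℝ) 1, ∀ x ∈ C, C1CorankOne f t x ∨
    ∃ j, f (t, x) ∈ 𝓕.dom j ∧ Along (𝓕.map j) f t x

/-- the same with a map to a 3-manifold -/
def C1ByMap (C : Set M) (f : ℝ × M → M) : Prop :=
  ∃ (B : Manifold3) (q : M → B), ∀ t ∈ Icc (0 : ℝ) 1, ∀ x ∈ C, C1CorankOne f t x ∨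
    (Submersion q (f (t, x)) ∧ Along q f t x)

/-- `φ` is a diffeomorphism -/
def IsDiffeo (φ : M → M) : Prop := ∃ Φ : Diffeomorph (𝓡 4) (𝓡 4) M M ∞, ∀ x, Φ x = φ x

/-- `K` is a smooth isotopy from the identity to `φ` through diffeomorphisms which are the identity
outside of a compact subset of `V` -/
def IsIsotopy (φ : M → M) (V : Set M) (K : ℝ × M → M) : Prop :=
  ContMDiff ((𝓘(ℝ, ℝ)).prod (𝓡 4)) (𝓡 4) ∞ K ∧ (∀ t, IsDiffeo (fun x => K (t, x))) ∧
    (∀ x, K (0, x) = x) ∧ (∀ x, K (1, x) = φ x) ∧
    ∃ C' : Set M, IsCompact C' ∧ C' ⊆ V ∧ ∀ t x, x ∉ C' → K (t, x) = x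

end defs2

/-- a smooth function with values in the unit interval, `0` for `s ≤ a` and `1` for `s ≥ b`, for
some `0 < a` and `b < 1` -/
def IsStep (θ : ℝ → ℝ) : Prop :=
  ContDiff ℝ ∞ θ ∧ (∀ s, θ s ∈ Icc (0 : ℝ) 1) ∧
    ∃ a b : ℝ, 0 < a ∧ b < 1 ∧ (∀ s ≤ a, θ s = 0) ∧ ∀ s, b ≤ s → θ s = 1

theorem exists_step : ∃ θ : ℝ → ℝ, IsStep θ := by
  refine ⟨fun s => Real.smoothTransition (3 * s - 1), ?_, fun s => ?_, 1 / 3, 2 / 3, by norm_num,
    by norm_num, fun s hs => ?_, fun s hs => ?_⟩
  · exact Real.smoothTransition.contDiff.comp ((contDiff_const.mul contDiff_id).sub contDiff_const)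
  · exact ⟨Real.smoothTransition.nonneg _, Real.smoothTransition.le_one _⟩
  · exact Real.smoothTransition.zero_of_nonpos (by linarith)
  · exact Real.smoothTransition.one_of_one_le (by linarith)

/-- every time change of `f` which is constant near the ends has in every open neighbourhood of its
graph the graph of an isotopy with compact support in `V` -/
def LimitOfIsotopies {M : Manifold4} (φ : M → M) (V : Set M) (f : ℝ × M → M) : Prop :=
  ∀ θ : ℝ → ℝ, IsStep θ → ∀ O : Set ((ℝ × M) × M), IsOpen O →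
    (∀ s x, ((s, x), f (θ s, x)) ∈ O) →
    ∃ K : ℝ × M → M, IsIsotopy φ V K ∧ ∀ s x, ((s, x), K (s, x)) ∈ O

section proofs

variable {M : Manifold4}

theorem fam (𝓕 : Family M) :
    letI : ChartedSpace (Run7.h7.E (3 + 1)) M := M.chart
    Run7.h7.Fam 3 𝓕.dom 𝓕.map :=
  letI : ChartedSpace (Run7.h7.E (3 + 1)) M := M.chart
  ⟨𝓕.isOpen_dom, fun j y hy => ⟨(𝓕.submersion j y hy).1.self_of_nhds, (𝓕.submersion j y hy).2⟩,
    𝓕.compatible⟩

theorem general {J : Type} {U : J → Set M} {Q : J → M → R3}
    (hQ : letI : ChartedSpace (Run7.h7.E (3 + 1)) M := M.chart; Run7.h7.Fam 3 U Q)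
    {φ : M → M} (hφ : IsDiffeo φ) {C : Set M} (hC : IsCompact C) {f : ℝ × M → M}
    (hf : IsPath φ C f)
    (hc : ∀ t ∈ Icc (0 : ℝ) 1, ∀ x ∈ C, C1CorankOne f t x ∨
      ∃ j, f (t, x) ∈ U j ∧
        letI : ChartedSpace (Run7.h7.E (3 + 1)) M := M.chart; Run7.h7.SubT 3 (Q j) f t x)
    {V : Set M} (hV : IsOpen V) (hCV : C ⊆ V) : LimitOfIsotopies φ V f := by
  let _ : ChartedSpace (Run7.h7.E (3 + 1)) M := M.chart
  have : IsManifold (𝓡 (3 + 1)) ∞ M := M.smooth
  have : T2Space M := M.hausdorff
  have : LocallyCompactSpace M := Manifold.locallyCompact_of_finiteDimensional (𝓡 (3 + 1))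
  obtain ⟨f1, f2, f3, f4⟩ := hf
  obtain ⟨C', hC', hCC, hC'V⟩ := exists_compact_between hC hV hCV
  intro θ ⟨t1, t2, a, b, ha, hb1, t3, t4⟩ O hO hfO
  obtain ⟨Φ, e1⟩ := hφ
  have e0' : (fun x => f (0, x)) = (id : M → M) := funext f3
  have e1' : (fun x => f (1, x)) = Φ := funext fun x => (f4 x).trans (e1 x).symm
  obtain ⟨K, k1, k2, k3, k4, k5⟩ := Run7.h7.iso_main (m := 3) f f1 (fun t ht => (f2 t ht).1)
    hC (fun t ht x hx => ((f2 t ht).2 x hx).trans (f3 x).symm) isOpen_interior hCC
    (fun x => by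
      rw [e0']
      exact (Diffeomorph.refl (𝓡 (3 + 1)) M ∞).isLocalDiffeomorph x)
    (fun x => by rw [e1']; exact Φ.isLocalDiffeomorph x) hQ
    (fun t ht x hx => (hc t ht x hx).imp (fun h => ⟨h.1.self_of_nhds, h.2⟩) id)
    t1 t2 ha hb1 (fun s hs => t3 s hs.le) (fun s hs => t4 s hs.le) hO hfO
  have hs0 : ∀ s, θ s ∈ Icc (0 : ℝ) 1 := t2
  refine ⟨K, ⟨k1, fun t => ?_, fun x => ?_, fun x => ?_, C', hC', hC'V, fun s x hx => ?_⟩, k5⟩
  · have hl : IsLocalDiffeomorph (𝓡 4) (𝓡 4) ∞ (fun x => K (t, x)) := k3 t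
    exact ⟨hl.diffeomorphOfBijective (k2 t), fun x => rfl⟩
  · rw [k4 0 x (Or.inl fun h => lt_irrefl _ h.1), t3 0 ha.le, f3]
  · rw [k4 1 x (Or.inl fun h => lt_irrefl _ h.2), t4 1 hb1.le, f4]
  · have hx' : x ∉ interior C' := fun h => hx (interior_subset h)
    rw [k4 s x (Or.inr hx')]
    exact (f2 _ (hs0 s)).2 x fun h => hx' (hCC h)

theorem byMap {C : Set M} {f : ℝ × M → M} (hc : C1ByMap C f) :
    ∃ (J : Type) (U : J → Set M) (Q : J → M → R3),
      (letI : ChartedSpace (Run7.h7.E (3 + 1)) M := M.chart; Run7.h7.Fam 3 U Q) ∧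
      ∀ t ∈ Icc (0 : ℝ) 1, ∀ x ∈ C, C1CorankOne f t x ∨
        ∃ j, f (t, x) ∈ U j ∧
          letI : ChartedSpace (Run7.h7.E (3 + 1)) M := M.chart; Run7.h7.SubT 3 (Q j) f t x := by
  obtain ⟨B, q, hc⟩ := hc
  let _ : ChartedSpace (Run7.h7.E (3 + 1)) M := M.chart
  have : IsManifold (𝓡 (3 + 1)) ∞ M := M.smooth
  have : IsManifold (𝓡 3) ∞ B := B.smooth
  refine ⟨B, _, _, Run7.h7.famB (m := 3) q, fun t ht x hx => (hc t ht x hx).imp id ?_⟩
  rintro ⟨⟨h1, h2⟩, h3, h4⟩
  have h5 : Run7.h7.SubB 3 q (f (t, x)) := ⟨h1, h2⟩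
  have hi : ∀ z : M, ContMDiffAt (𝓡 (3 + 1)) ((𝓘(ℝ, ℝ)).prod (𝓡 (3 + 1))) 1
      (fun z : M => ((t, z) : ℝ × M)) z := fun z => contMDiffAt_const.prodMk contMDiffAt_id
  have h6 : Run7.h7.SubB 3 (fun z => q (f (t, z))) x := by
    refine ⟨?_, h4⟩
    have h7 : ContinuousAt (fun z : M => ((t, z) : ℝ × M)) x := (hi x).continuousAt
    filter_upwards [h7.eventually h3] with z hz
    exact ContMDiffAt.comp (g := fun p => q (f p)) (f := fun z : M => ((t, z) : ℝ × M)) z hz (hi z)
  refine ⟨q (f (t, x)), ⟨h1.mono fun z hz => hz.continuousAt, mem_chart_source _ _,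
    h5.chart (mem_chart_source _ _)⟩, ?_, (h6.chart (mem_chart_source _ _)).2⟩
  have h8 : Pool.Agent.Y522.LD 3 (chartAt R3 (q (f (t, x))) : B → R3) (q (f (t, x))) :=
    Pool.Agent.Y66.CM.LD_chart _ _ (mem_chart_source _ _)
  have h9 : ContMDiffAt (𝓡 3) (𝓡 3) 1 (chartAt R3 (q (f (t, x))) : B → R3) (q (f (t, x))) :=
    h8.contMDiffAt.of_le (by simp)
  exact ContMDiffAt.comp (g := (chartAt R3 (q (f (t, x))) : B → R3))
    (f := fun p : ℝ × M => q (f p)) (t, x) h9 h3.self_of_nhds

end proofs

/-- Let `φ` be a diffeomorphism of a smooth 4-manifold and `f` a path of homeomorphisms with support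
in a compact set `C` from the identity to `φ`, of class `C^1` and of corank at most one, or with three
coordinates of class `C^1`, at each point of `C`.  Then `f` is a limit of smooth isotopies with
compact support in any given neighbourhood `V` of `C`; in particular `φ` is isotopic to the identity
with compact support in `V`. -/
theorem result (M : Manifold4) (φ : M → M) (hφ : IsDiffeo φ) (C : Set M) (hC : IsCompact C)
    (f : ℝ × M → M) (hf : IsPath φ C f) (hc : C1ByFamily C f ∨ C1ByMap C f)
    (V : Set M) (hV : IsOpen V) (hCV : C ⊆ V) :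
    LimitOfIsotopies φ V f ∧ ∃ K, IsIsotopy φ V K := by
  have key : LimitOfIsotopies φ V f := by
    rcases hc with ⟨𝓕, hc⟩ | hc
    · exact general (fam 𝓕) hφ hC hf (fun t ht x hx => (hc t ht x hx).imp id
        fun ⟨j, h1, h2, h3⟩ => ⟨j, h1, h2.self_of_nhds, h3⟩) hV hCV
    · obtain ⟨J, U, Q, hQ, hc⟩ := byMap hc
      exact general hQ hφ hC hf hc hV hCV
  obtain ⟨θ, hθ⟩ := exists_step
  obtain ⟨K, k1, -⟩ := key θ hθ univ isOpen_univ (fun _ _ => mem_univ _)
  exact ⟨key, K, k1⟩

end Pool.Agent.Results.MP_8e98f2_gt.C1Isotopy
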