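import Pool.Agent.Run7.h7.AvgNull

/-!
# MP_8e98f2_gt, Q1: mean oscillation of the differential and isotopy classes

A barbell implantation in the 4-sphere is supported in the complement of a point, so it is (given
by) a diffeomorphism `φ` of `ℝ⁴` with compact support, and Q1 asks whether such a diffeomorphism can
represent a nontrivial isotopy class.  This file treats diffeomorphisms of `ℝⁿ` with compact support
(Q1: `n = 4`; for `n ≠ 4` the group of isotopy classes is known to be finite) under conditions on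
the mean oscillation of the differential `Dφ` over balls `B`, that is the average over `B` of
`‖Dφ - (Dφ)_B‖`, where `(Dφ)_B` is the average of `Dφ` over `B`.  The averages are never assumed to
be invertible, and no bound for `‖Dφ‖` is assumed.

* If the average over `B` of `‖Dφ - (Dφ)_B‖ ‖(Dφ)⁻¹‖` is less than one for every ball `B`, then `φ`
  is isotopic to the identity.
* If for some probability measure `μ` with bounded support and without atoms all the averages
  `∫ Dφ(x + r z) dμ(z)`, `r > 0`, are nonsingular, then `φ` is isotopic to the identity.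
* Let `‖(Dφ)⁻¹‖ ≤ M`, `‖(Dψ)⁻¹‖ ≤ M`, and let the mean oscillation of `Dφ` and `Dψ` be at most `θ` on
  all balls of radius at most `r₀`, where `M θ < 1`.  If `2 n M |φ - ψ| ≤ 2 n M η < r₀ (1 - M θ)`, then `φ`
  and `ψ` are isotopic.
* For all `M`, `θ`, `r₀`, `ρ` with `M θ < 1`, the diffeomorphisms `φ` with support in the ball of radius
  `ρ`, with `‖(Dφ)⁻¹‖ ≤ M` and mean oscillation at most `θ` on the balls of radius at most `r₀` represent
  only finitely many isotopy classes.  (So if a sequence of implantations, say with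
  `‖(Dφ)⁻¹‖ ≤ M`, represents infinitely many classes, its mean oscillation is at least
  almost `1 / M` at arbitrarily small scales.)
* The mean oscillation is at most `2ⁿ⁺¹ τ` on the balls of radius at most `r₀` if the energy
  `∫_B ‖D²φ‖ⁿ` is at most `τⁿ |B₁|` for all balls `B` of radius `r₀`; and `φ` is isotopic to the identity if
  `∫ ‖D²φ‖ⁿ ≤ τⁿ |B₁|` and `2ⁿ⁺¹ τ M < 1`.

All isotopies are smooth and have compact support.
-/

set_option autoImplicit false

open MeasureTheory Metric Function Set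
open scoped ContDiff

noncomputable section

namespace Pool.Agent.Results.MP_8e98f2_gt.MeanOscillation

/-- `ℝⁿ` -/
abbrev R (n : ℕ) : Type := EuclideanSpace ℝ (Fin n)

variable {n : ℕ}

/-- diffeomorphisms of `ℝⁿ` with compact support -/
structure IsDiffeo (φ : R n → R n) : Prop where
  smooth : ContDiff ℝ ∞ φ
  inverse : ∃ g : R n → R n, ContDiff ℝ ∞ g ∧ LeftInverse g φ ∧ RightInverse g φ
  support : ∃ ρ : ℝ, ∀ x, ρ < ‖x‖ → φ x = x

/-- `φ` and `ψ` are joined by a smooth isotopy with compact support -/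
def Isotopic (φ ψ : R n → R n) : Prop :=
  ∃ (F : ℝ × R n → R n) (ρ : ℝ), ContDiff ℝ ∞ F ∧ (∀ t x, ρ < ‖x‖ → F (t, x) = x) ∧
    (∀ t ∈ Icc (0 : ℝ) 1, IsDiffeo (fun x => F (t, x))) ∧ (∀ x, F (0, x) = φ x) ∧
    ∀ x, F (1, x) = ψ x

/-- the average of the differential over the ball with centre `x` and radius `r` -/
def mean (φ : R n → R n) (x : R n) (r : ℝ) : R n →L[ℝ] R n := ⨍ y in ball x r, fderiv ℝ φ y

/-- the mean oscillation of the differential on this ball -/
def osc (φ : R n → R n) (x : R n) (r : ℝ) : ℝ := ⨍ y in ball x r, ‖fderiv ℝ φ y - mean φ x r‖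

/-- the mean oscillation weighted by the norm of the inverse of the differential -/
def weightedOsc (φ : R n → R n) (x : R n) (r : ℝ) : ℝ :=
  ⨍ y in ball x r, ‖fderiv ℝ φ y - mean φ x r‖ * ‖(fderiv ℝ φ y).inverse‖

/-- `‖(Dφ)⁻¹‖ ≤ M` -/
def InverseBound (M : ℝ) (φ : R n → R n) : Prop := ∀ x v, ‖v‖ ≤ M * ‖fderiv ℝ φ x v‖

/-- the mean oscillation is at most `θ` on all balls of radius at most `r₀` -/
def SmallOsc (θ r₀ : ℝ) (φ : R n → R n) : Prop := ∀ x r, 0 < r → r ≤ r₀ → osc φ x r ≤ θ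

/-- `φ` is a diffeomorphism with `‖(Dφ)⁻¹‖ ≤ M` and mean oscillation at most `θ` on all balls of
radius at most `r₀` -/
def Admissible (M θ r₀ : ℝ) (φ : R n → R n) : Prop :=
  IsDiffeo φ ∧ InverseBound M φ ∧ SmallOsc θ r₀ φ

/-- `φ` is the identity outside of the ball of radius `ρ` -/
def SupportedIn (ρ : ℝ) (φ : R n → R n) : Prop := ∀ x, ρ < ‖x‖ → φ x = x

/-- the norm of the second derivative -/
def secondNorm (φ : R n → R n) (y : R n) : ℝ := ‖iteratedFDeriv ℝ 2 φ y‖

/-- the volume of the unit ball of `ℝⁿ` (`π² / 2` for `n = 4`) -/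
def unitVolume (n : ℕ) : ℝ := (volume : Measure (R n)).real (ball 0 1)

/-- weighted mean oscillation less than one on all balls -/
def WeightedOscillation (n : ℕ) : Prop :=
  ∀ φ : R n → R n, IsDiffeo φ → (∀ x r, 0 < r → weightedOsc φ x r < 1) → Isotopic φ (fun x => x)

/-- nonsingular averages along a measure without atoms -/
def NonsingularAverages (n : ℕ) : Prop :=
  ∀ (μ : Measure (R n)), IsProbabilityMeasure μ → (∃ S : ℝ, ∀ᵐ z ∂μ, ‖z‖ ≤ S) →
    (∀ z, μ {z} = 0) → ∀ φ : R n → R n, IsDiffeo φ →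
      (∀ r : ℝ, 0 < r → ∀ x, Injective (∫ z, fderiv ℝ φ (x + r • z) ∂μ : R n →L[ℝ] R n)) →
      Isotopic φ (fun x => x)

/-- two diffeomorphisms which are close with respect to the scale -/
def ClosePairs (n : ℕ) : Prop :=
  ∀ M θ r₀ η : ℝ, 0 ≤ M → M * θ < 1 → 0 < r₀ → 2 * n * M * η < r₀ * (1 - M * θ) →
    ∀ φ ψ : R n → R n, Admissible M θ r₀ φ → Admissible M θ r₀ ψ → (∀ x, ‖φ x - ψ x‖ ≤ η) →
      Isotopic φ ψ

/-- finitely many isotopy classes -/
def FiniteClasses (n : ℕ) : Prop :=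
  ∀ M θ r₀ ρ : ℝ, 0 ≤ M → M * θ < 1 → 0 < r₀ →
    ∃ (N : ℕ) (Ψ : Fin N → R n → R n), (∀ i, Admissible M θ r₀ (Ψ i) ∧ SupportedIn ρ (Ψ i)) ∧
      ∀ φ : R n → R n, Admissible M θ r₀ φ → SupportedIn ρ φ → ∃ i, Isotopic φ (Ψ i)

/-- small energy on the balls of radius `r₀` -/
def EnergyOscillation (n : ℕ) : Prop :=
  ∀ τ r₀ : ℝ, 0 ≤ τ → ∀ φ : R n → R n, IsDiffeo φ →
    (∀ x, ∫ y in ball x r₀, secondNorm φ y ^ n ≤ τ ^ n * unitVolume n) →
    SmallOsc (2 ^ (n + 1) * τ) r₀ φ

/-- small energy -/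
def EnergyGap (n : ℕ) : Prop :=
  ∀ M τ : ℝ, 0 ≤ M → 0 ≤ τ → 2 ^ (n + 1) * τ * M < 1 → ∀ φ : R n → R n, IsDiffeo φ →
    InverseBound M φ → ∫ y, secondNorm φ y ^ n ≤ τ ^ n * unitVolume n → Isotopic φ (fun x => x)

open Run7.h7.Avg (DiffC IsotopicC Cls)

theorem toC {φ : R n → R n} (h : IsDiffeo φ) : DiffC φ := ⟨h.smooth, h.inverse, h.support⟩

theorem ofC {φ : R n → R n} (h : DiffC φ) : IsDiffeo φ := ⟨h.smooth, h.inv, h.supp⟩

theorem isoC {φ ψ : R n → R n} (h : IsotopicC φ ψ) : Isotopic φ ψ := by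
  obtain ⟨F, ρ, h1, h2, h3, h4, h5⟩ := h
  exact ⟨F, ρ, h1, h2, fun t ht => ofC (h3 t ht), h4, h5⟩

theorem osc_eq (φ : R n → R n) (x : R n) {r : ℝ} (hr : 0 < r) :
    Run7.h7.Avg.OS volume φ r x = osc φ x r := by
  rw [Run7.h7.Avg.OS, Run7.h7.Avg.HM_unif volume _ hr, osc]
  have e : Run7.h7.Avg.AV (Run7.h7.Avg.unif volume) φ r x = mean φ x r :=
    Run7.h7.Avg.HM_unif volume _ hr x
  rw [e]

theorem toCls {M θ r₀ : ℝ} {φ : R n → R n} (h : Admissible M θ r₀ φ) : Cls volume M θ r₀ φ :=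
  ⟨toC h.1, h.2.1, fun x r h0 h1 => by
    rw [osc_eq φ x h0]
    exact h.2.2 x r h0 h1⟩

theorem ofCls {M θ r₀ : ℝ} {φ : R n → R n} (h : Cls volume M θ r₀ φ) : Admissible M θ r₀ φ :=
  ⟨ofC h.diff, h.lower, fun x r h0 h1 => by
    rw [← osc_eq φ x h0]
    exact h.osc x r h0 h1⟩

theorem finrank_R (n : ℕ) : Module.finrank ℝ (R n) = n := by simp

theorem secondNorm_eq (φ : R n → R n) (y : R n) :
    secondNorm φ y = ‖fderiv ℝ (fderiv ℝ φ) y‖ := by
  unfold secondNorm
  rw [← norm_iteratedFDeriv_fderiv, norm_iteratedFDeriv_one]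

theorem energyOsc (hn : n ≠ 0) : EnergyOscillation n := by
  intro τ r₀ hτ φ hφ he x r h0 h1
  rw [← osc_eq φ x h0]
  refine (Run7.h7.Avg.OS_le (vol := volume) (toC hφ) h0 x).trans ?_
  rw [finrank_R]
  refine mul_le_mul_of_nonneg_left ?_ (by positivity)
  have hc : Continuous (fun y => ‖fderiv ℝ (fderiv ℝ φ) y‖) :=
    ((hφ.smooth.fderiv_right (m := ∞) (by simp)).continuous_fderiv (by simp)).norm
  refine Run7.h7.Avg.mean_le_energy (vol := volume) hc
    (fun y => norm_nonneg (fderiv ℝ (fderiv ℝ φ) y)) h0 h1 hτ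
    (by rw [finrank_R]; exact hn) x ?_
  have := he x
  rw [finrank_R]
  simp only [secondNorm_eq] at this
  exact this

/-- **Mean oscillation of the differential and isotopy classes.** -/
theorem result (n : ℕ) (hn : n ≠ 0) : WeightedOscillation n ∧ NonsingularAverages n ∧
    ClosePairs n ∧ FiniteClasses n ∧ EnergyOscillation n ∧ EnergyGap n := by
  refine ⟨?_, ?_, ?_, ?_, energyOsc hn, ?_⟩
  · intro φ hφ h
    exact isoC (Run7.h7.Avg.weighted (vol := volume) (by rw [finrank_R]; exact hn) (toC hφ)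
      fun r hr x => h x r hr)
  · intro μ hμ hS hna φ hφ h
    obtain ⟨S, hS⟩ := hS
    refine isoC (Run7.h7.Avg.null_measure (μ := μ) (S := max S 0) ⟨hμ, le_max_right _ _, ?_⟩ hna
      (toC hφ) fun r hr x v hv => ?_)
    · filter_upwards [hS] with z hz
      exact hz.trans (le_max_left _ _)
    · exact h r hr x (hv.trans (map_zero _).symm)
  · intro M θ r₀ η hM hθ hr hlt φ ψ hφ hψ hη
    refine isoC (Run7.h7.Avg.close hM hr (toCls hφ) (toCls hψ) hθ hη ?_)
    rw [finrank_R]
    linarith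
  · intro M θ r₀ ρ hM hθ hr
    obtain ⟨N, Ψ, h1, h2⟩ := Run7.h7.Avg.finite_classes (vol := (volume : Measure (R n)))
      hM hr hθ ρ
    refine ⟨N, Ψ, fun i => ⟨ofCls (h1 i).1, (h1 i).2⟩, fun φ hφ hρ => ?_⟩
    obtain ⟨i, hi⟩ := h2 φ (toCls hφ) hρ
    exact ⟨i, isoC hi⟩
  · intro M τ hM hτ hlt φ hφ hI he
    obtain ⟨ρ, hρ⟩ := hφ.support
    set θ : ℝ := 2 ^ (n + 1) * τ with hθ
    have hθM : 0 < 1 - M * θ := by
      rw [mul_comm M θ]
      linarith
    set m : ℝ := 2 * max ρ 0 with hm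
    have hm0 : 0 ≤ m := by positivity
    set r₀ : ℝ := (2 * n * m * M + 1) / (1 - M * θ) with hr₀
    have hr0 : 0 < r₀ := by positivity
    have hint : Integrable (fun y => secondNorm φ y ^ n) := by
      have hc : Continuous (fun y => secondNorm φ y ^ n) := by
        simp only [secondNorm_eq]
        exact (((hφ.smooth.fderiv_right (m := ∞) (by simp)).continuous_fderiv
          (by simp)).norm).pow n
      refine hc.integrable_of_hasCompactSupport ?_
      refine HasCompactSupport.intro (isCompact_closedBall (0 : R n) (max ρ 0)) fun x hx => ?_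
      rw [mem_closedBall, dist_zero_right, not_le] at hx
      have h1 : fderiv ℝ φ =ᶠ[nhds x] fun _ => ContinuousLinearMap.id ℝ (R n) := by
        have h2 : {y : R n | ρ < ‖y‖} ∈ nhds x :=
          (isOpen_lt continuous_const continuous_norm).mem_nhds
            (lt_of_le_of_lt (le_max_left _ _) hx)
        have h3 : φ =ᶠ[nhds x] id := by
          filter_upwards [h2] with y hy
          exact hρ y hy
        refine (h3.fderiv).trans (Filter.Eventually.of_forall fun y => ?_)
        exact fderiv_id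
      rw [secondNorm_eq, h1.fderiv_eq]
      have h4 : fderiv ℝ (fun _ : R n => ContinuousLinearMap.id ℝ (R n)) x = 0 :=
        fderiv_const_apply _
      rw [h4]
      exact (congrArg (fun s : ℝ => s ^ n)
        (norm_zero (E := R n →L[ℝ] R n →L[ℝ] R n))).trans (zero_pow hn)
    have hadm : Admissible M θ r₀ φ := by
      refine ⟨hφ, hI, energyOsc hn τ r₀ hτ φ hφ fun x => ?_⟩
      exact (setIntegral_le_integral hint (Filter.Eventually.of_forall fun y =>
        pow_nonneg (norm_nonneg _) n)).trans he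
    refine isoC (Run7.h7.Avg.close_id (η := m) hM hr0 (toCls hadm) (by linarith)
      (fun y => (Run7.h7.Avg.disp_bound (toC hφ) hρ y).2) ?_)
    rw [finrank_R, hr₀, div_mul_cancel₀ _ hθM.ne']
    linarith

end Pool.Agent.Results.MP_8e98f2_gt.MeanOscillation
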