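import Pool.Agent.Run7.h60.FAIso

/-!
# MP_8e98f2_gt, Q1: topological isotopies supported near a barbell

Q1 asks for a barbell in `S⁴` whose implantation is not smoothly isotopic to the identity.  Like
every diffeomorphism of `S⁴` homotopic to the identity, an implantation is isotopic to the identity
through homeomorphisms (Perron, Quinn).  The theorem says when such a topological isotopy can be made
smooth, with control of its support.

Let `M` be a smooth 4-manifold without boundary (for Q1 `M = S⁴`; `M` need not be compact), let `ψ`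
be a diffeomorphism of `M` (the implantation of a barbell) and let `f_t`, `0 ≤ t ≤ 1`, be a path of
homeomorphisms of `M` from the identity to `ψ`, continuous in `(t, x)`, which is the identity off a
compact set `C` (for example the barbell, or a 4-ball containing it).  Suppose that every `(t₀, x₀)`,
`x₀ ∈ C`, near which the path is not a smooth path of local diffeomorphisms has a smooth
parametrization `A` near `x₀`, bi-Lipschitz with the constant `K` with respect to a fixed function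
`d`, and smooth coordinates `B` near `f_{t₀} x₀` such that the maps `h_t = B ∘ f_t ∘ A` are almost
affine: for all `t` near `t₀`, all `z` near `0` and all small scales `r` there is a linear
isomorphism `L`, which may depend on `t`, on `z` and on `r` in an arbitrary way, such that

`‖L⁻¹ (h_t (z + y) - h_t z) - y‖ ≤ η r` for all `y` with `‖y‖ ≤ r`,

where `η > 0` depends only on `K`.  Then, for every open set `U` which contains `C`, `ψ` is joined to
the identity by a smooth path of diffeomorphisms which are the identity off one compact subset of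
`U`, and this path can be chosen arbitrarily close to `f_t`.  It is enough to have the estimate for
the scales `r = ε k` of one sequence `ε k → 0`, if `‖L⁻¹‖ ‖L‖² ε k → 0`, uniformly near `(t₀, 0)`.

So if the implantation of a barbell is a nontrivial element of `π₀ Diff₀(S⁴)`, then no topological
isotopy from the identity to it is of this kind; and if it is trivial in `π₀ Diff₀(S⁴)` but is not
the end of a smooth isotopy supported in `U`, then no topological isotopy supported in `U` is of this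
kind.
-/

set_option autoImplicit false

open Set Filter Topology Metric Function
open scoped Manifold ContDiff

noncomputable section

namespace Pool.Agent.Results.MP_8e98f2_gt.SupportedIsotopies

/-- `ℝ⁴` -/
abbrev R4 : Type := EuclideanSpace ℝ (Fin 4)

/-- On the ball of radius `r` about `z` the map `h` differs from an affine map with the linear part
`L` by at most `η r`, measured after applying the inverse of `L`. -/
def AffineOn (η : ℝ) (h : R4 → R4) (z : R4) (r : ℝ) (L : R4 ≃L[ℝ] R4) : Prop :=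
  ∀ y : R4, ‖y‖ ≤ r → ‖L.symm (h (z + y) - h z) - y‖ ≤ η * r

/-- The maps `h t` are almost affine near `0`, for `t` in `[0, 1]` near `t₀`, with linear parts
`L t z r` which depend on the time `t`, on the point `z` and on the scale `r`: either at all small
scales `r`, or at the scales `ε k`, with `‖L⁻¹‖ ‖L‖² ε k → 0`. -/
def AlmostAffine (η : ℝ) (ε : ℕ → ℝ) (t₀ : ℝ) (h : ℝ → R4 → R4) : Prop :=
  ∃ (ρ : ℝ) (L : ℝ → R4 → ℝ → (R4 ≃L[ℝ] R4)), 0 < ρ ∧
    ((∀ᶠ r in 𝓝[>] (0 : ℝ), ∀ t ∈ Icc (0 : ℝ) 1, dist t t₀ < ρ → ∀ z : R4, ‖z‖ < ρ →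
        AffineOn η (h t) z r (L t z r)) ∨
      ((∀ᶠ k in atTop, ∀ t ∈ Icc (0 : ℝ) 1, dist t t₀ < ρ → ∀ z : R4, ‖z‖ < ρ →
          AffineOn η (h t) z (ε k) (L t z (ε k))) ∧
        ∀ δ : ℝ, 0 < δ → ∀ᶠ k in atTop, ∀ t ∈ Icc (0 : ℝ) 1, dist t t₀ < ρ → ∀ z : R4, ‖z‖ < ρ →
          ‖((L t z (ε k)).symm : R4 →L[ℝ] R4)‖ * ‖(L t z (ε k) : R4 →L[ℝ] R4)‖ ^ 2 * ε k ≤ δ))

section defs

variable {M : Type} [TopologicalSpace M] [ChartedSpace R4 M]

/-- `φ` is a diffeomorphism of `M` -/
def IsDiffeo (φ : M → M) : Prop := ∃ Φ : M ≃ₘ^∞⟮𝓡 4, 𝓡 4⟯ M, ∀ x, Φ x = φ x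

omit [ChartedSpace R4 M] in
/-- `f_t`, `0 ≤ t ≤ 1`, is a path of homeomorphisms of `M` from the identity to `ψ`, which are the
identity off `C` -/
structure TopologicalIsotopy (ψ : M → M) (C : Set M) (f : ℝ × M → M) : Prop where
  continuous : ContinuousOn f (Icc 0 1 ×ˢ univ)
  homeo : ∀ t ∈ Icc (0 : ℝ) 1, ∃ e : M ≃ₜ M, ∀ x, e x = f (t, x)
  supported : ∀ t ∈ Icc (0 : ℝ) 1, ∀ x, x ∉ C → f (t, x) = x
  zero : ∀ x, f (0, x) = x
  one : ∀ x, f (1, x) = ψ x

/-- `F_t`, `t ∈ ℝ`, is a smooth path of diffeomorphisms of `M`, the identity off `C`, with `F_0` the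
identity and `F_1 = ψ` -/
structure SmoothIsotopy (ψ : M → M) (C : Set M) (F : ℝ × M → M) : Prop where
  smooth : ContMDiff ((𝓘(ℝ, ℝ)).prod (𝓡 4)) (𝓡 4) ∞ F
  diffeo : ∀ t, IsDiffeo fun x => F (t, x)
  supported : ∀ t x, x ∉ C → F (t, x) = x
  zero : ∀ x, F (0, x) = x
  one : ∀ x, F (1, x) = ψ x

/-- `A` is a smooth parametrization of a neighbourhood of `x = A 0` -/
def IsParam (A : R4 → M) (x : M) : Prop := A 0 = x ∧ IsLocalDiffeomorphAt (𝓡 4) (𝓡 4) ∞ A 0

/-- `B` is a smooth coordinate system around `y` -/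
def IsCoord (B : M → R4) (y : M) : Prop := IsLocalDiffeomorphAt (𝓡 4) (𝓡 4) ∞ B y

/-- `A` is bi-Lipschitz near `0` with the constant `K`, with respect to `d` -/
def BiLipschitz (d : M → M → ℝ) (K : ℝ) (A : R4 → M) : Prop :=
  ∀ᶠ q : R4 × R4 in 𝓝 0, d (A q.1) (A q.2) ≤ K * ‖q.1 - q.2‖ ∧
    ‖q.1 - q.2‖ ≤ K * d (A q.1) (A q.2)

/-- near `(t₀, x₀)` in `[0, 1] × M` the path `f` is smooth, and `f_{t₀}` is a local diffeomorphism
at `x₀` -/
def SmoothNear (f : ℝ × M → M) (t₀ : ℝ) (x₀ : M) : Prop :=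
  (∀ᶠ q in 𝓝[Icc (0 : ℝ) 1 ×ˢ (univ : Set M)] (t₀, x₀),
    ContMDiffWithinAt ((𝓘(ℝ, ℝ)).prod (𝓡 4)) (𝓡 4) ∞ f (Icc (0 : ℝ) 1 ×ˢ (univ : Set M)) q) ∧
    IsLocalDiffeomorphAt (𝓡 4) (𝓡 4) ∞ (fun x => f (t₀, x)) x₀

/-- the path `f` is almost affine at `(t₀, x₀)`, in a parametrization near `x₀` which is bi-Lipschitz
with the constant `K` and in some coordinates near `f_{t₀} x₀` -/
def AlmostAffineAt (d : M → M → ℝ) (K η : ℝ) (ε : ℕ → ℝ) (f : ℝ × M → M) (t₀ : ℝ) (x₀ : M) :
    Prop :=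
  ∃ (A : R4 → M) (B : M → R4), IsParam A x₀ ∧ IsCoord B (f (t₀, x₀)) ∧
    BiLipschitz d K A ∧ AlmostAffine η ε t₀ fun t z => B (f (t, A z))

end defs

/-- **A diffeomorphism joined to the identity by a compactly supported topological isotopy which is
almost affine at small scales is joined to it by a smooth isotopy with nearby support.** -/
theorem result (K : ℝ) (hK : 1 ≤ K) : ∃ η : ℝ, 0 < η ∧
    ∀ (M : Type) [TopologicalSpace M] [T2Space M] [ChartedSpace R4 M] [IsManifold (𝓡 4) ∞ M]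
      (d : M → M → ℝ) (ε : ℕ → ℝ), (∀ k, 0 < ε k) → Tendsto ε atTop (𝓝 0) →
      ∀ (ψ : M → M) (C : Set M) (f : ℝ × M → M), IsDiffeo ψ → IsCompact C →
        TopologicalIsotopy ψ C f →
        (∀ t ∈ Icc (0 : ℝ) 1, ∀ x ∈ C, SmoothNear f t x ∨ AlmostAffineAt d K η ε f t x) →
        ∀ U : Set M, IsOpen U → C ⊆ U → ∀ O : Set ((ℝ × M) × M), IsOpen O →
          (∀ t ∈ Icc (0 : ℝ) 1, ∀ x, ((t, x), f (t, x)) ∈ O) →
          ∃ (C' : Set M) (F : ℝ × M → M), IsCompact C' ∧ C' ⊆ U ∧ SmoothIsotopy ψ C' F ∧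
            ∀ t ∈ Icc (0 : ℝ) 1, ∀ x, ((t, x), F (t, x)) ∈ O := by
  refine ⟨Run7.h60.Sc.eta 4 K, Run7.h60.Sc.eta_pos hK, ?_⟩
  intro M _ _ _ _ d ε hε hε0 ψ C f hψ hC hf hx U hU hCU O hO hfO
  have hl : ∀ x, IsLocalDiffeomorphAt (𝓡 4) (𝓡 4) ∞ ψ x := by
    obtain ⟨Φ, hΦ⟩ := hψ
    intro x
    have e1 : ψ = Φ := funext fun x => (hΦ x).symm
    rw [e1]
    exact Φ.isLocalDiffeomorph x
  have e0 : (fun x => f (0, x)) = fun x => x := funext hf.zero
  have e1 : (fun x => f (1, x)) = ψ := funext hf.one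
  obtain ⟨F, C', e1, e2, e3, e4, e5, e6, e7, e8⟩ := Run7.h60.Sc.affIsoRel (n := 4) f
    hf.continuous hf.homeo hC (fun t ht x hxC => by rw [hf.supported t ht x hxC, hf.zero x])
    (fun x => by rw [e0]; exact Pool.Agent.Y522.LD.id x)
    (fun x => by rw [e1]; exact hl x) d hK hε hε0 (fun t ht x hxC => by
      rcases hx t ht x hxC with h | ⟨A, B, ⟨k1, k2⟩, k3, k4, k5⟩
      · exact Or.inl h
      · exact Or.inr ⟨A, B, k1, k2, k3, k4, k5⟩) O hO hfO hU hCU
  refine ⟨C', F, e6, e7, ⟨fun q => (e1 q).1.self_of_nhds, fun t => ?_,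
    fun t x hxC => (e8 t x hxC).trans (hf.zero x), fun x => (e3 x).trans (hf.zero x),
    fun x => (e4 x).trans (hf.one x)⟩, e5⟩
  have hl : IsLocalDiffeomorph (𝓡 4) (𝓡 4) ∞ (fun x => F (t, x)) := fun x => (e1 (t, x)).2
  exact ⟨hl.diffeomorphOfBijective (e2 t), fun x => rfl⟩

end Pool.Agent.Results.MP_8e98f2_gt.SupportedIsotopies
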